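import Mathlib
import Pool.Agent.Helper81K1.OJ.Asym

set_option autoImplicit false

/-!
# The `t`-th largest prime factor of an odd perfect number

For every `t` there are `M` and `N₀` such that every odd perfect number `N ≥ N₀` has at least `t`
prime factors larger than `√(log N) / (log log N) ^ M`.  So for every fixed `t` the `t`-th largest
prime factor of `N` is at least `(log N) ^ (1 / 2 - o(1))`.

Proof.  Put `L = log N`, let `Y` be the bound above, let `T` be the set of the prime factors `> Y`, and
suppose that `T` has at most `t` elements.  Let `q ≤ Y` be a prime factor of `N`, `n = v_q(N) + 1`.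
For `d ∣ n`, `d > 1`, the number `Φ_d(q)` divides `2 N`; its prime factors which do not divide `d`
are `1` modulo `d`.  So if `n > Y D`, then for each divisor `d < D` of `n` all the primitive prime
factors of `Φ_{n / d}(q)` belong to `T`; hence `n` has at most `t` such divisors
(`OPN.card_divisors`), and `Φ_n(q)` is, up to a factor at most `n`, a product of powers of
elements of `T` (`OPN.structure_phi`).

If there are `|T| + 1` such primes `q`, then Siegel's lemma gives a relation between the numbers
`log Φ_n(q) - log δ`, in which the (possibly huge) primes of `T` do not occur (`siegel`).  Write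
`log Φ_n(q) = φ(n) log q + ∑_{d ∣ n} μ(n / d) log (1 - q ^ (-d))`.  If no `n` has a divisor in
`[D, D')`, then the terms with `d ≥ D'` are tiny, and what is left is a linear form in logarithms
of numbers with logarithms at most `D ^ 2 log L`; it does not vanish, and Baker's theorem shows
that `D'` is bounded by a power of `D log L` (`core`).  So there are more small divisors than
allowed (`OPN.few`).

Thus all but `t` of the primes `q ≤ Y` have an exponent at most `Y (log L) ^ C`.  The descent on
the prime factors (`Desc`), which has at most `2 t` steps, now shows that `L ≤ Y ^ 2 (log L) ^ C'`.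
-/

namespace Pool.Agent.Helper81K1.Old.EveryLargestPrime

/-- **Main theorem.**  For every `t` there are `M`, `N₀` such that every odd perfect number `N ≥ N₀`
has at least `t` prime factors larger than `√(log N) / (log log N) ^ M`. -/
theorem result (t : ℕ) : ∃ M N₀ : ℕ, ∀ N ≥ N₀, Odd N → Nat.Perfect N →
    t ≤ (N.primeFactors.filter
      (fun p : ℕ => √(Real.log N) / (Real.log (Real.log N)) ^ M < (p : ℝ))).card :=
  Pool.Agent.Helper81K1.OJ.many t

end Pool.Agent.Helper81K1.Old.EveryLargestPrime
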